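import Mathlib
import Pool.Agent.FA2.Defs
import Pool.Agent.FA2S.Contra

namespace Pool.Agent.Results.MP_a58b4b_lc.FailsAtSizeAlephTwo

open Cardinal Pool.Agent.FA2

/-- The forcing axiom for aleph two dense sets fails already for proper posets of cardinality at
most aleph two with the aleph two chain condition. -/
theorem result : ∃ (P : Type) (_ : PartialOrder P), Nonempty P ∧ #P ≤ aleph 2 ∧
    ProperPoset P ∧ CCaleph2 P ∧
    ∃ F : Set (Set P), #F ≤ aleph 2 ∧ (∀ D ∈ F, DenseIn D) ∧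
      ∀ G : Set P, IsFilt G → ∃ D ∈ F, G ∩ D = ∅ := by
  obtain ⟨P, hP, h1, h0, h2, h3, h4⟩ := Pool.Agent.FA2S.exists_bad
  refine ⟨P, hP, h1, h0, h2, h3, ?_⟩
  unfold FAaleph2 at h4
  push Not at h4
  obtain ⟨F, hF1, hF2, hF3⟩ := h4
  refine ⟨F, hF1, hF2, fun G hG => ?_⟩
  obtain ⟨D, hD, hGD⟩ := hF3 G hG
  exact ⟨D, hD, hGD⟩

end Pool.Agent.Results.MP_a58b4b_lc.FailsAtSizeAlephTwo
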